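import Pool.Agent.TH652.Class

/-!
# `ℓ²`-homology above half the dimension, for right-angled Coxeter groups, in all dimensions

`AM n G`: the smallest family of pairs (natural number `n`, finite graph `G`) which
* contains the comparability graphs of finite graded posets of length `n` which are Gorenstein* over `F_2`
  (for example the barycentric subdivisions of all triangulated `(n-1)`-spheres),
* is closed under full subgraphs, isomorphisms, subdivisions of edges, and `n ↦ n + 1`,
* is closed under joins (the numbers `n` add up),
* is closed under gluing two members of number `n + 2` along a common full subgraph of number `n`,
* and contains, for `n = 2 m + 2`, each finite graph all of whose vertex links are members of number `2 m + 1`.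

If `G` is a full subcomplex of a flag triangulation `L` of the `(n-1)`-sphere, then the right-angled Coxeter group
`W G` acts geometrically on a contractible `n`-manifold with boundary, so that its cocompact action dimension is at
most `n`.
-/

set_option autoImplicit false

namespace Pool.Agent.Results.MP_ea75ba_gt.AboveMiddle

open Pool.Agent.W907.SG Pool.Agent.TH652.Above

/-- For a flag complex in the class `AM n` the Davis complex of the right-angled Coxeter group carries no nonzero
`ℓ²` harmonic `i`-chain in the degrees `i > n / 2`. -/
theorem result : ∀ (n : ℕ) (V : Type) [Fintype V] [LinearOrder V] (G : SimpleGraph V), AM n G →
    ∀ i : ℕ, n < 2 * i → L2Van G i := by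
  intro n V _ _ G h i hi
  exact above_AM h i hi

end Pool.Agent.Results.MP_ea75ba_gt.AboveMiddle
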